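import Pool.Agent.Lib_helper58.KT.Final

/-!
# Semicontinuity of the number of Tate classes in towers of Kummer coverings

Let `K` be a number field, `p` a prime (any prime), `ζ` a primitive `m`-th root of unity of `K` and
let `S` be a finite family of strata: affine spaces with polynomials `H_i`, `G_i`, `D_i` over the
integers of `K` and integer coefficients `c_i`. For `n ≥ 0` let `L_n` be the field of the `p ^ n`-th
roots of unity over `K`. The tower has the character sums

  `T_n(F) = ∑ c_i ∑ [H_i(x)]_m * [G_i(x) / D_i(x)]_(p ^ n)`

for the finite fields `F` over a residue field of `L_n` (`x` runs over all points over `F`, `[y]` is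
the power residue symbol). For `n = 0` this is the bottom of the tower. Geometrically, the `T_n(F)`
are the traces of Frobenius on the cohomology with compact support of a variety with coefficients in
`L_χ(H) ⊗ L_ψ(G / D)`, `ψ` a character of order `p ^ n`, this means on a part of the cohomology of
the coverings `z ^ (p ^ n) = G / D` of the tower.

Let `ρ` be a continuous representation of the Galois group of `K` over `ℂ_[p]` with the traces
`T_0(F)`, modulo `|F| - 1`, and let `g` be an element of the Galois group of `K` that fixes all
roots of unity of `p`-power order. Let `e` be the number of eigenvalues of `ρ g` that are roots of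
unity. The theorem: for all levels `n`, except at most `B`, for every prime `ℓ` and every `ℓ`-adic
representation `V` of the Galois group of `L_n` with the traces `T_n(F)` a subquotient of `V(j)` on
which an open subgroup acts trivially has dimension at most `e`. The number `B` depends on `ρ`, `g`
and `m` only; it does not depend on the family and on `j`.

There is no hypothesis on `p` (`p = 2`, `p` smaller than the dimension and primes of bad reduction
are allowed) and no hypothesis on the levels of the tower; everything depends on one element at the
bottom. If `m` is replaced by `m * p ^ k` and `H` by `H ^ (p ^ k) * (G / D) ^ m`, then the bottom of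
the new tower is the level `k` of the old one; so any level can be used as the bottom.

The proof: the power sums of the eigenvalues of one Frobenius element at all levels are the values
of polynomials `θ_r(t)` at `t = ω_n` (`ω_n` a root of unity of order `p ^ n`) and `t = 1` (the
bottom). At a level with many Tate classes many eigenvalues are roots of unity up to a power of `q`;
their orders are prime to a suitable exponent `κ`, and the automorphism that raises the roots of
unity to the power `κ` shows that a certain polynomial `h(t)` vanishes at `ω_n`, and at its
conjugates. So `h(1)` is divisible by many elements `1 - ω`, `ω` of order `p ^ m`, and its `p`-adic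
absolute value is small. But near `g` it is bounded from below.
-/

set_option autoImplicit false

namespace Pool.Agent.Results.MP_97f789_ag.KummerTowers

open NumberField Pool.Agent.TT Pool.Agent.KT

theorem result {K : Type} [Field K] [NumberField K] [Algebra K Qbar] {p m : ℕ} [Fact p.Prime]
    (hm : 0 < m) {ζ : 𝓞 K} (hζ : IsPrimitiveRoot ζ m) (ι : K →+* ℂ_[p]) {d : ℕ}
    (ρ : (Qbar ≃ₐ[K] Qbar) →* Matrix (Fin d) (Fin d) ℂ_[p]) (hρ : Continuous ρ)
    (g : Qbar ≃ₐ[K] Qbar) (hg : ∀ (n : ℕ) (z : Qbar), z ^ p ^ n = 1 → g z = z) :
    ∃ B : ℕ, ∀ (j : ℕ) {s : ℕ} (S : Fin s → TowerStratum K), BottomTraces ρ ι m ζ S →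
      ∀ T : Finset ℕ, (∀ n ∈ T, ManyTateClasses p m ζ S d j (rootEig (ρ g)) n) → T.card ≤ B :=
  main hm hζ ι ρ hρ g hg

end Pool.Agent.Results.MP_97f789_ag.KummerTowers
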