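import Mathlib
import Pool.Agent.Lib_helper10.LogRank.Defs
import Pool.Agent.Lib_helper10.AndRank.ComposeMain

set_option autoImplicit false

namespace Pool.Agent.Results.MP_e5d384_lc.Gadgets

open Pool.Agent.Lib_helper10.LogRank

/-- The log-rank conjecture is inherited by compositions with arbitrary gadgets other than XOR.
Alice holds `x = (x_i)`, Bob holds `q` and `y = (y_i)`, and they compute
`F(x, (q, y)) = f_q (g_1(x_1, y_1), …, g_n(x_n, y_n))`, where the outer functions `f_q` are
arbitrary and every gadget `g_i` has deterministic communication complexity at most `κ` and is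
not of the form `u(a) + v(b)` modulo `2`. Then `F` has a deterministic protocol of cost
polynomial in `κ` and in the logarithm of the real rank of its communication matrix,
whatever the number of coordinates. -/
theorem result (ι : Type) [Fintype ι] [DecidableEq ι] (A B : ι → Type)
    [∀ i, Fintype (A i)] [∀ i, Fintype (B i)] (Q : Type) [Fintype Q]
    (g : ∀ i, A i → B i → Bool)
    (hg : ∀ i, ¬ ∃ (u : A i → Bool) (v : B i → Bool), ∀ a b, g i a b = xor (u a) (v b))
    (κ : ℕ) (hκ : ∀ i, ∃ ρ : Protocol (A i) (B i), ρ.cost ≤ κ ∧ ∀ a b, ρ.eval a b = g i a b)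
    (f : Q → (ι → Bool) → Bool) :
    ∃ π : Protocol (∀ i, A i) (Q × (∀ i, B i)),
      (∀ x p, π.eval x p = f p.1 (fun i => g i (x i) (p.2 i))) ∧
      (π.cost : ℝ) ≤ 10 ^ 6 * ((1 + κ) *
        (1 + Real.logb 2 (realRank fun (x : ∀ i, A i) (p : Q × (∀ i, B i)) =>
          f p.1 (fun i => g i (x i) (p.2 i))))) ^ 5 :=
  Pool.Agent.Lib_helper10.AndRank.logRank_gadget ι A B Q g hg κ hκ f

end Pool.Agent.Results.MP_e5d384_lc.Gadgets
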