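import Mathlib
import Pool.Agent.Lib_helper10.LogRank.Defs
import Pool.Agent.Lib_helper10.Meet.Final

set_option autoImplicit false

namespace Pool.Agent.Results.MP_e5d384_lc.MeetSemilattices

open Pool.Agent.Lib_helper10.LogRank

/-- The log-rank conjecture (with exponent 5) for meet functions on finite meet-semilattices.
`L` is an arbitrary finite meet-semilattice. Alice holds `x ∈ L`, Bob holds `q ∈ Q` and `y ∈ L`,
and they compute `f q (x ⊓ y)`. With `L` the family of all subsets of an `n`-element set and `Q`
a point these are all functions `f (x ∧ y)`, `f : {0,1}^n → {0,1}`; with `L` the divisors of an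
integer all functions of `gcd (x, y)`; with `L` the subspaces of a finite vector space all
functions of the intersection of two subspaces. -/
theorem result (L : Type) [SemilatticeInf L] [Fintype L] (Q : Type) [Fintype Q]
    (f : Q → L → Bool) (hne : ∃ q v, f q v = true) :
    ∃ π : Protocol L (Q × L), (∀ x p, π.eval x p = f p.1 (x ⊓ p.2)) ∧
      (π.cost : ℝ) ≤ 40 * (1 + Real.logb 2
        (realRank fun (x : L) (p : Q × L) => f p.1 (x ⊓ p.2))) ^ 5 :=
  Pool.Agent.Lib_helper10.Meet.logRank_meetSemilattice L Q f hne

end Pool.Agent.Results.MP_e5d384_lc.MeetSemilattices
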