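import Pool.Agent.Lib_helper16.KP.Final

/-!
# Few characters of prime power order have more Tate classes than the bottom allows

Let `K` be a number field and let `ζ` be a primitive `m`-th root of unity of `K`. Let `S` be a finite
family of strata: affine spaces with polynomials `H_k`, `G_ki`, `D_ki` over the integers of `K`
(`i = 1, ..., r`) and integer coefficients `c_k`. For a number `q` and exponents `a_i > 0` there are
the character sums

  `T_(q,a)(F) = ∑ c_k ∑ [H_k(x)]_m * [∏ (G_ki(x) / D_ki(x)) ^ a_i]_q`

for the finite fields `F` over a residue field of `L = K(μ_q)` (`x` runs over all points over `F`,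
`[y]` is the power residue symbol; `alongFamily S a` is the family with the one function
`∏ (G_ki / D_ki) ^ a_i`). For `q = 1` this is the bottom; it does not depend on `a`. Geometrically,
the `T_(q,a)(F)` are the traces of Frobenius on the cohomology with compact support of a variety with
coefficients in `L_χ(H) ⊗ L_ψ1(G_1 / D_1) ⊗ ... ⊗ L_ψr(G_r / D_r)`, where `ψ_i` is the `a_i`-th power
of a character of order `q`, this means on a part of the cohomology of the covering
`z_i ^ q = G_i / D_i` with group `(ℤ/q)^r`. The `q ^ r` exponents `a` with `1 ≤ a_i ≤ q` are all
characters of this group.

Let `P` be a set of primes. For `p` in `P` let `ρ p` be a continuous representation of dimension `d`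
of the Galois group of `K` over `ℂ_[p]` with the traces `T_(1,a)(F)`, modulo `|F| - 1`
(`CommonBottom`). Assume (`FewRoots`) that for every `p` in `P` some `g` which fixes all roots of unity
of `p`-power order has at most `e` eigenvalues that are roots of unity, and for almost all `p` in `P`
some such `g` has at most `e` eigenvalues that are congruent to roots of unity of an order `n` with
`φ(n) ≤ d * φ(m)`, modulo the maximal ideal. (If `P` is finite then the second condition is empty. If
the `ρ p` are the `p`-adic representations of an abelian variety then both conditions with `e = 0`
follow from the existence of one place `v` with no eigenvalue `α` of Frobenius for which `α ^ 2` is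
`q_v` times a root of unity: let `g` be a power of the Frobenius element times a homothety.)

A power `q` of a prime in `P` is bad for `a` (`BadPrimePower`) if, for some prime `ℓ`, some `ℓ`-adic
representation `V` of dimension `d` of the Galois group of `K(μ_q)` has the traces `T_(q,a)(F)` and
some open subgroup acts trivially on a subquotient of dimension larger than `e` of `V(j)`. The theorem:

1. for each `a` at most `B` numbers `q` are bad, and they are powers of primes `p ≤ B`;
2. at most `C * q ^ (r - 1)` of the `q ^ r` exponents `a` with `1 ≤ a_i ≤ q` are bad at `q`, for all
   `q`.

The number `B` depends only on the bottom; it does not depend on `r`, on the family, on `a` and on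
`j`. The number `C` depends on the family and on `j`. For `r = 1`, `a = 1` and `e = 0` part 1 says
that for all but finitely many prime powers `q` (powers of primes in `P`) the character of order `q`
has no Tate classes.

The proof of 1: for a fixed prime `p` the power sums of the eigenvalues of one Frobenius element at all
levels are the values of polynomials at roots of unity of `p`-power order, and one polynomial `h`
vanishes at all bad levels; so `h(1)` is `p`-adically small if there are many bad levels, but near
`g` it is bounded from below (`Pool.Agent.KT`). For large `p` the eigenvalues of Frobenius at the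
level `p ^ n` and at the bottom are congruent; the eigenvalues that are roots of unity, up to a power
of the cardinality of the residue field, have bounded orders, so `g` has too many eigenvalues close to
roots of unity of small order.

The proof of 2: for a fixed `p` and all `N` a polynomial `H_N` in `r` variables vanishes at all bad
characters of the levels `p ^ n`, `n ≤ N`, and `|H_N(1, ..., 1)|` is bounded from below. The largest
norm of a coefficient of `H_N` modulo `t_i ^ (p ^ n) = 1` increases with `n` and takes finitely many
values. So there is an `n₀` such that for all `n ≥ n₀` it is the same for `n₀` and for `n` for some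
`N ≥ n`. Then, after a normalization, the reduction of `H_N` modulo the maximal ideal has a monomial
`β` (in the variables `t_i - 1`) with `β_i < p ^ n₀`; by the combinatorial Nullstellensatz the products
of `H_N` with the monomials whose exponents `γ` satisfy `γ_i + β_i < p ^ n` are linearly independent
on the characters of the level `n` that are not zeros of `H_N`, where `β` is the smallest monomial of
the reduction. So `H_N` has at most `r * p ^ n₀ * (p ^ n) ^ (r - 1)` zeros at the level `n`.
-/

set_option autoImplicit false

namespace Pool.Agent.Results.MP_97f789_ag.PrimePowers

open NumberField Pool.Agent.TT Pool.Agent.KT Pool.Agent.KP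

theorem result {K : Type} [Field K] [NumberField K] [Algebra K Qbar] {m : ℕ} (hm : 0 < m)
    {ζ : 𝓞 K} (hζ : IsPrimitiveRoot ζ m) (ι : ∀ (p : ℕ) [Fact p.Prime], K →+* ℂ_[p])
    (P : Set ℕ) {d e : ℕ}
    (ρ : ∀ (p : ℕ) [Fact p.Prime], (Qbar ≃ₐ[K] Qbar) →* Matrix (Fin d) (Fin d) ℂ_[p])
    (hρ : FewRoots P ρ (d * m.totient) e) :
    ∃ B : ℕ, ∀ (j : ℕ) {r s : ℕ} (S : Fin s → MultiStratum K r),
      CommonBottom P ρ ι m ζ (alongFamily S fun _ => 1) →
        (∀ a : Fin r → ℕ, (∀ i, 0 < a i) → ∀ T : Finset ℕ,
          (∀ q ∈ T, BadPrimePower P m ζ (alongFamily S a) d j e q) →
            T.card ≤ B ∧ ∀ q ∈ T, q.minFac ≤ B) ∧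
        ∃ C : ℕ, ∀ q : ℕ, (badExponents P m ζ S d j e q).card * q ≤ C * q ^ r :=
  multi_main hm hζ ι P ρ hρ

end Pool.Agent.Results.MP_97f789_ag.PrimePowers
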